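import Pool.Agent.H238.PH.Spec

set_option autoImplicit false

/-!
# Project PH, N1: upper bound for the mean oscillation
-/

namespace Pool.Agent.H860.PH

open MeasureTheory Set Filter Topology
open Pool.Agent.H238.PH

theorem t_N1 : S_N1 := by
  intro n γ L V hγ hL hV hbd c s hs
  set B : Set (RE 2) := Metric.ball c s with hB
  set M : ℝ := L * (‖c‖ + s) ^ (γ - 1) with hM
  have hcs : 0 ≤ ‖c‖ + s := by positivity
  have hM0 : 0 ≤ M := mul_nonneg hL (Real.rpow_nonneg hcs _)
  set T : ℝ := 2 * s * L * (‖c‖ + s) ^ (γ - 1) with hT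
  have hTM : T = M * (2 * s) := by
    rw [hT, hM]
    ring
  have hT0 : 0 ≤ T := by
    rw [hTM]
    positivity
  have hnorm : ∀ x ∈ B, ‖x‖ ≤ ‖c‖ + s := by
    intro x hx
    have h1 : ‖x - c‖ < s := by
      rw [← dist_eq_norm]
      exact hx
    calc ‖x‖ = ‖c + (x - c)‖ := by rw [add_sub_cancel]
      _ ≤ ‖c‖ + ‖x - c‖ := norm_add_le _ _
      _ ≤ ‖c‖ + s := by linarith
  have hder : ∀ x ∈ B, ‖fderiv ℝ V x‖ ≤ M := by
    intro x hx
    refine (hbd x).trans (mul_le_mul_of_nonneg_left ?_ hL)
    exact Real.rpow_le_rpow (norm_nonneg _) (hnorm x hx) (by linarith)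
  have hdiff : ∀ x ∈ B, DifferentiableAt ℝ V x := fun x _ =>
    (hV.differentiable one_ne_zero) x
  have hosc : ∀ x ∈ B, ∀ y ∈ B, ‖V y - V x‖ ≤ T := by
    intro x hx y hy
    have h1 := (convex_ball c s).norm_image_sub_le_of_norm_fderiv_le hdiff hder hx hy
    have h2 : ‖y - x‖ ≤ 2 * s := by
      rw [← dist_eq_norm]
      have h3 : dist y c < s := hy
      have h4 : dist x c < s := hx
      calc dist y x ≤ dist y c + dist c x := dist_triangle _ _ _
        _ = dist y c + dist x c := by rw [dist_comm c x]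
        _ ≤ 2 * s := by linarith
    rw [hTM]
    exact h1.trans (mul_le_mul_of_nonneg_left h2 hM0)
  have hμ0 : volume B ≠ 0 := (Metric.measure_ball_pos volume c hs).ne'
  have hμt : volume B ≠ ⊤ := measure_ball_lt_top.ne
  have hint : ∀ {F : Type} [NormedAddCommGroup F] (g : RE 2 → F), Continuous g →
      IntegrableOn g B volume := by
    intro F _ g hg
    exact (hg.continuousOn.integrableOn_compact (isCompact_closedBall c s)).mono_set
      Metric.ball_subset_closedBall
  have hmeasB : MeasurableSet B := Metric.isOpen_ball.measurableSet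
  have hav : ∀ x ∈ B, ‖V x - ⨍ y in B, V y‖ ≤ T := by
    intro x hx
    have h1 : (⨍ y in B, V y) ∈ Metric.closedBall (V x) T := by
      refine (convex_closedBall (V x) T).set_average_mem Metric.isClosed_closedBall hμ0 hμt ?_
        (hint V hV.continuous)
      refine (ae_restrict_iff' hmeasB).mpr (Eventually.of_forall fun y hy => ?_)
      rw [Metric.mem_closedBall, dist_eq_norm]
      exact hosc x hx y hy
    rw [Metric.mem_closedBall, dist_eq_norm, norm_sub_rev] at h1
    exact h1
  have h2 : (⨍ x in B, ‖V x - ⨍ y in B, V y‖ ^ 2) ∈ Set.Iic (T ^ 2) := by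
    refine (convex_Iic (T ^ 2)).set_average_mem isClosed_Iic hμ0 hμt ?_ (hint _ ?_)
    · refine (ae_restrict_iff' hmeasB).mpr (Eventually.of_forall fun x hx => ?_)
      exact pow_le_pow_left₀ (norm_nonneg _) (hav x hx) 2
    · exact ((hV.continuous.sub continuous_const).norm).pow 2
  unfold osc
  calc Real.sqrt (⨍ x in B, ‖V x - ⨍ y in B, V y‖ ^ 2) ≤ Real.sqrt (T ^ 2) :=
        Real.sqrt_le_sqrt h2
    _ = T := Real.sqrt_sq hT0

end Pool.Agent.H860.PH
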